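import Mathlib
import Pool.Agent.Lib.MP_d610d0_nt.Zb

/-!
Definitions for the theorem: for all but `O(N^(3/4))` of the `n ≤ N` there are many integers
`m`, `n ^ 3 < m < m + 2 < (n + 1) ^ 3`, such that `m (m + 2)` has at most six prime factors.
-/

set_option autoImplicit false

namespace Pool.Agent.TwA

open Finset
open Pool.Agent.Lib.MP_d610d0_nt
open scoped ArithmeticFunction.Omega

/-- `comb D c t = ∑_{d ≤ D} ∑_{a mod d} c(d,a) 1_{t ≡ a (d)}`. -/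
noncomputable def comb (D : ℕ) (c : ℕ → ℕ → ℝ) (t : ℕ) : ℝ :=
  ∑ d ∈ Icc 1 D, ∑ a ∈ range d, c d a * ind d a t

/-- The mean value of `comb D c`. -/
noncomputable def cmean (D : ℕ) (c : ℕ → ℕ → ℝ) : ℝ :=
  ∑ d ∈ Icc 1 D, ∑ a ∈ range d, c d a / d

/-- The total weight of the modulus `d`. -/
noncomputable def cw (c : ℕ → ℕ → ℝ) (d : ℕ) : ℝ := ∑ a ∈ range d, |c d a|

/-- `e(x) = exp (2 π i x)`. -/
noncomputable def ex (x : ℝ) : ℂ := Complex.exp (2 * Real.pi * Complex.I * x)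

/-- The new weights: `Y(r) = log (R / r) + (log R) / 8` for `r ≤ R`. -/
noncomputable def Yq (R : ℝ) (r : ℕ) : ℝ :=
  if (r : ℝ) ≤ R then Real.log (R / r) + Real.log R / 8 else 0

noncomputable def Lq (R : ℝ) (t : ℕ) : ℝ := ∑ r ∈ SR R, Yq R r * psiR r t

noncomputable def Mq (R : ℝ) : ℝ := ∑ r ∈ SR R, hR r * Yq R r ^ 2

noncomputable def Gq (R : ℝ) (p : ℕ) : ℝ := ∑ r ∈ SR R, hR r * (Yq R r - Yq R (p * r)) ^ 2

noncomputable def Gn (R : ℝ) (p : ℕ) : ℝ :=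
  ∑ r ∈ (SR R).filter (fun r => ¬ p ∣ r), hR r * (Yq R r - Yq R (p * r)) ^ 2

noncomputable def Zq (R : ℝ) : ℝ := ∑ r ∈ SR R, Yq R r * WR r

/-- The sieve function. -/
noncomputable def fq (R η B : ℝ) (t : ℕ) : ℝ :=
  (B - ∑ p ∈ Pr η, wt η p * indF p t) * Lq R t ^ 2

/-- Its mean value. -/
noncomputable def mq (R η B : ℝ) : ℝ :=
  B * Mq R - ∑ p ∈ Pr η, wt η p * (2 / (p : ℝ) * Gn R p)

/-- The coefficient of `1_{e ∣ F}` in `psiR r`. -/
noncomputable def kap (r e : ℕ) : ℝ := (∏ p ∈ e.primeFactors, (-(1 + hp p))) * hR (r / e)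

noncomputable def lamq (R : ℝ) (e : ℕ) : ℝ :=
  ∑ r ∈ (SR R).filter (fun r => e ∣ r), Yq R r * kap r e

/-- The limit function of `Gq` on `[0,1]`. -/
noncomputable def gq (v : ℝ) : ℝ := v / 32 + 79 / 64 * v ^ 2 - 3 / 2 * v ^ 3 + v ^ 4 / 2

noncomputable def gt (v : ℝ) : ℝ := gq (min v 1)

/-- `F t` has at most six prime factors, all of them larger than `exp w`. -/
def Good6 (w : ℝ) (t : ℕ) : Prop :=
  Ω (F t) ≤ 6 ∧ ∀ p : ℕ, p.Prime → p ∣ F t → w < Real.log p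

/-- `F t` is divisible by the square of a prime larger than `exp w`. -/
def SqBad (w : ℝ) (t : ℕ) : Prop := ∃ p : ℕ, p.Prime ∧ w < Real.log p ∧ p ^ 2 ∣ F t

end Pool.Agent.TwA
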