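import Mathlib
import Pool.Agent.Lib.MP_d610d0_nt.AS.Defs

/-!
Statements of the pieces, with complete proofs in words.

Notation: `τ d = d.divisors.card`, `ℓ = log R`.  The library `Lib/MP_d610d0_nt` (Sel, Psi, Weight,
Layer, Mrel, Zb) contains the analogous statements for the old weights `Y`.
-/

set_option autoImplicit false

namespace Pool.Agent.TwA

open Finset MeasureTheory
open Pool.Agent.Lib.MP_d610d0_nt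
open scoped ArithmeticFunction.Omega

/-- [V1] Geometric sums. Proof: `ex (β i) = ex β ^ i`, the sum is `(ex β ^ L - 1) / (ex β - 1)`, the
numerator has norm at most `2`, and `‖ex β - 1‖ = 2 |sin (π β)| ≥ 4 |β|` for `|β| ≤ 1/2`
(`Real.mul_le_sin`). -/
def S_V1 : Prop := ∀ β : ℝ, β ≠ 0 → |β| ≤ 1 / 2 → ∀ L : ℕ,
  ‖∑ i ∈ range L, ex (β * i)‖ ≤ 1 / (2 * |β|)

/-- [V2] Schur type bound. Proof: expand `‖∑_d u_d e(β_d s)‖² = ∑_{d,d'} u_d conj(u_d') e((β_d - β_d') s)`,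
sum over `s`. The diagonal gives `X ∑ ‖u_d‖²`. For `d ≠ d'` use
`‖u_d‖ ‖u_d'‖ A ≤ (‖u_d‖² + ‖u_d'‖²) / 2 * A(d,d')` with `A(d,d') = ‖∑_s e((β_d - β_d') s)‖`, which
is symmetric in `d, d'` (complex conjugation). -/
def S_V2 : Prop := ∀ (S : Finset ℕ) (u : ℕ → ℂ) (β : ℕ → ℝ) (X : ℕ) (K : ℝ), 0 ≤ K →
  (∀ d ∈ S, ∑ d' ∈ S.erase d, ‖∑ s ∈ range X, ex ((β d - β d') * s)‖ ≤ K) →
  ∑ s ∈ range X, ‖∑ d ∈ S, u d * ex (β d * s)‖ ^ 2 ≤ (X + K) * ∑ d ∈ S, ‖u d‖ ^ 2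

/-- [V3] One line of frequencies (uses V1, V2). Proof: V2 with `β d = σ c / d`. For `d ≠ d'` in `S`
the number `β = σ c (d' - d) / (d d')` is nonzero, `|β| ≤ 1/2` (both `c / d`, `c / d'` lie in
`(0, 1/2]`), and `|β| ≥ c |d - d'| / D²`, so by V1 the inner sum is at most `D² / (2 c |d - d'|)`.
Summing over `d' ≠ d`: every difference `h = |d - d'| ∈ [1, D]` occurs at most twice, and
`∑_{h ≤ D} 1/h ≤ 1 + log D`. -/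
def S_V3 : Prop := ∀ (D c X : ℕ) (σ : ℝ), (σ = 1 ∨ σ = -1) → 1 ≤ D → 1 ≤ c → ∀ S : Finset ℕ,
  S ⊆ Icc 1 D → (∀ d ∈ S, 2 * c ≤ d) → ∀ u : ℕ → ℂ,
  ∑ s ∈ range X, ‖∑ d ∈ S, u d * ex (σ * c / d * s)‖ ^ 2
    ≤ (X + (D : ℝ) ^ 2 / c * (1 + Real.log D)) * ∑ d ∈ S, ‖u d‖ ^ 2

/-- [V4] Fourier expansion of a residue class. Proof: `∑_{b < d} e(b (t - a) / d)` is `d` if
`d ∣ t - a` (as integers) and `0` otherwise (geometric sum with ratio `e((t-a)/d) ≠ 1` a `d`-th root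
of unity); as `a < d`, `d ∣ t - a` iff `t % d = a`. -/
def S_V4 : Prop := ∀ d a t : ℕ, a < d →
  ((ind d a t : ℝ) : ℂ) = (1 / (d : ℂ)) * ∑ b ∈ range d, ex (b * ((t : ℝ) - a) / d)

/-- [V5] Fourier expansion of the discrepancy (uses V1, V4). Proof: insert V4 for `t = s + i`; the
term `b = 0` contributes exactly `L * cmean D c`; for `1 ≤ b < d` put
`u d b = (1/d) (∑_a c d a e(- a b / d)) (∑_{i < L} e(b i / d))`. The first sum has norm at most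
`cw c d`, and the second: `e(b i / d) = e(β i)` with `β = b/d` if `2 b ≤ d`, `β = b/d - 1` otherwise
(`i` is an integer), so `|β| = min b (d - b) / d ≤ 1/2` and V1 gives the bound
`d / (2 min b (d - b))`. -/
def S_V5 : Prop := ∀ (D L : ℕ) (c : ℕ → ℕ → ℝ), ∃ u : ℕ → ℕ → ℂ,
  (∀ s : ℕ, ((((∑ i ∈ range L, comb D c (s + i)) - L * cmean D c : ℝ)) : ℂ)
    = ∑ d ∈ Icc 1 D, ∑ b ∈ Ico 1 d, u d b * ex ((b : ℝ) / d * s)) ∧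
  ∀ d b : ℕ, 1 ≤ b → b < d → ‖u d b‖ ≤ cw c d / (2 * (min b (d - b) : ℕ))

/-- [V6] The variance bound (uses V3, V5). Proof: write the double sum of V5 as
`∑_{c=1}^{D} (F_c(s) + G_c(s))`, `F_c(s) = ∑_{d ≤ D, 2c ≤ d} u(d,c) e(c s / d)` and
`G_c(s) = ∑_{d ≤ D, 2c < d} u(d,d-c) e(-c s / d)` (the terms with `2b ≤ d`, `c = b`, resp. `2b > d`,
`c = d - b`; `e((d-c) s / d) = e(-c s/d)`). Cauchy-Schwarz with the weights `1/c`: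
`|∑_c (F_c + G_c)|² ≤ (2 ∑_{c ≤ D} 1/c) ∑_c c (|F_c|² + |G_c|²)`, and `∑_{c ≤ D} 1/c ≤ 1 + log D`.
By V3 and the bound of V5 (`min = c` in both cases)
`∑_s c |F_c(s)|² ≤ c (X + D²/c (1 + log D)) W / (4 c²)`, `W = ∑_{d ≤ D} cw(d)²`, the same for `G_c`.
Sum over `c` with `∑ 1/c ≤ 1 + log D` and `∑ 1/c² ≤ 2`:
total `≤ 2 (1+log D) * (1/2) ((1+log D) X + 2 D² (1+log D)) W`. -/
def S_V6 : Prop := ∀ (D X L : ℕ) (c : ℕ → ℕ → ℝ), 1 ≤ D →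
  ∑ s ∈ range X, ((∑ i ∈ range L, comb D c (s + i)) - L * cmean D c) ^ 2
    ≤ (1 + Real.log D) ^ 2 * (X + 2 * (D : ℝ) ^ 2) * ∑ d ∈ Icc 1 D, cw c d ^ 2

/-- [B1] Expansion of `psiR`. Proof: induction on `r` with `Good.split` (`r = p r'`, `p ∤ r'`): the
divisors of `p r'` are the divisors `e` of `r'` and the `p e`; `psiR_mul_prime`, `psi_eq`;
`kap (p r') e = hp p * kap r' e` and `kap (p r') (p e) = -(1 + hp p) * kap r' e` for `e ∣ r'`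
(`hR_mul_prime`, `primeFactors_mul_prime`), `indF (p e) t = indF p t * indF e t` (coprime). -/
def S_B1 : Prop := ∀ r t : ℕ, Good r → psiR r t = ∑ e ∈ r.divisors, kap r e * indF e t

/-- [B2] (uses B1) Expansion of `Lq`, size of the coefficients. Proof: divisors of elements of `SR R`
are in `SR R`; exchange the sums. `|kap r e| = (∏_{p ∣ e} (1 + hp p)) hR (r / e)` and the product is
at most `2 ^ (number of primes of e) ≤ τ(e)` (`hp_le`). For `r ∈ SR R`: `0 ≤ Yq R r ≤ (9/8) ℓ`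
(as `1 ≤ r ≤ R`). Finally `∑_{r ∈ SR R, e ∣ r} hR (r / e) ≤ ∑_{s ∈ SR R} hR s = M R 0`
(`r = e s` with `s ∈ SR R`, injective). -/
def S_B2 : Prop := ∀ R : ℝ, 1 ≤ R →
  (∀ t, Lq R t = ∑ e ∈ SR R, lamq R e * indF e t) ∧
  ∀ e ∈ SR R, |lamq R e| ≤ 2 * Real.log R * M R 0 * (e.divisors.card : ℝ)

/-- [B3] The number of roots. Proof: the map `a ↦ gcd (m, 6 a + 5)` from
`{a < m : m ∣ F a}`, `F a = (6 a + 5) (6 a + 7)`, to the divisors of `m` is injective: if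
`e = gcd (m, 6a+5) = gcd (m, 6b+5)`, then `e ∣ 6 (a - b)`, hence `e ∣ a - b` (`m` is coprime to 6).
Let `f = m / e`. A prime `p ∣ f` does not divide `e` (`m` squarefree), so `p ∤ 6a+5`, and `p ∣ m ∣ F a`
gives `p ∣ 6a+7`; as `f` is squarefree, `f ∣ 6a+7`; the same for `b`; so `f ∣ a - b`, and
`m = e f ∣ a - b` (coprime), `a = b`. -/
def S_B3 : Prop := ∀ m : ℕ, Good m → ∑ a ∈ range m, indF m a ≤ (m.divisors.card : ℝ)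

/-- [B4] (uses B3) Combinations of the functions `indF m`, `m` good, are `comb`s. Proof: `indF m` is
periodic mod `m` (`indF_per`, `Per.mod`), so `indF m t = ∑_{a < m} indF m a * ind m a t`. Put
`c d a = (∑_{i ∈ I, md i = d} cf i) * indF d a`; for `d` which is no `md i` this is zero. -/
def S_B4 : Prop := ∀ (ι : Type) (I : Finset ι) (cf : ι → ℝ) (md : ι → ℕ) (D : ℕ),
  (∀ i ∈ I, Good (md i) ∧ md i ≤ D) →
  ∃ c : ℕ → ℕ → ℝ, (∀ t, ∑ i ∈ I, cf i * indF (md i) t = comb D c t) ∧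
    ∀ d, cw c d ≤ (d.divisors.card : ℝ) * ∑ i ∈ I.filter (fun i => md i = d), |cf i|

/-- [B5] Proof: `lcm a b ∣ n ↔ a ∣ n ∧ b ∣ n`; the lcm of squarefree numbers is squarefree, the lcm
divides `a b` which is coprime to 6. -/
def S_B5 : Prop := ∀ a b : ℕ, Good a → Good b →
  Good (Nat.lcm a b) ∧ ∀ t, indF a t * indF b t = indF (Nat.lcm a b) t

/-- [B6] (uses B2, B4, B5) The sieve function as a `comb`. Proof: by B2 and B5 `fq R η B t` is the sum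
over the triples `(e₁, e₂, p)`, `e₁, e₂ ∈ SR R`, `p ∈ {1} ∪ Pr η`, of
`λ(e₁) λ(e₂) κ(p) indF (lcm (lcm e₁ e₂) p) t`, `κ(1) = B`, `κ(p) = - wt η p` (`1 ∉ Pr η`,
`indF 1 t = 1`, primes `p ≥ 5` are good). The moduli are at most `R * R * exp η ≤ D`. Apply B4. If
`lcm (lcm e₁ e₂) p = d` then `e₁, e₂, p` are divisors of `d`, so there are at most `τ(d)^3` such
triples, and each `|cf|` is at most `(|B| + 1) (2 ℓ M_0)^2 τ(e₁) τ(e₂) ≤ (|B| + 1) (2 ℓ M_0)^2 τ(d)^2`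
(`0 ≤ wt ≤ 1` on `Pr η`; `τ(e) ≤ τ(d)` for `e ∣ d`, `d ≠ 0`). -/
def S_B6 : Prop := ∀ (R η B : ℝ) (D : ℕ), 1 ≤ R → 0 < η → R ^ 2 * Real.exp η ≤ D →
  ∃ c : ℕ → ℕ → ℝ, (∀ t, fq R η B t = comb D c t) ∧
    ∀ d ∈ Icc 1 D, cw c d
      ≤ (|B| + 1) * (2 * Real.log R * M R 0) ^ 2 * (d.divisors.card : ℝ) ^ 6

/-- [C1] Proof: exchange the sums; `sum_Ico_ind` for each `(d, a)`. -/
def S_C1 : Prop := ∀ (D : ℕ) (c : ℕ → ℕ → ℝ) (s N : ℕ),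
  |(∑ t ∈ Ico s (s + N), comb D c t) - N * cmean D c| ≤ ∑ d ∈ Icc 1 D, cw c d

/-- [C2] Proof: `quad_form` with `S = SR R`, `Y = Yq R`, `q = 1`, `g = 1`, `V = 1`, exactly as in
`sel_H1` (`Yq R r ≥ 0` on `SR R`, since `1 ≤ r ≤ R`). -/
def S_C2 : Prop := ∀ (R : ℝ), 1 ≤ R → ∀ s N : ℕ,
  |(∑ t ∈ Ico s (s + N), Lq R t ^ 2) - N * Mq R| ≤ Zq R ^ 2

/-- [C3] Proof: as `Lam_of_dvd` and `sel_H2` (with `k = 1`): if `p ∣ F t` then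
`Lq R t = ∑_{r ∈ SR R, p ∤ r} (Yq R r - Yq R (p r)) psiR r t` (`Yq R (p r) = 0` if `p r > R`), then
`quad_form` with `S = (SR R).filter (p ∤ ·)`, `q = p`, `g = indF p`, `V = 2`,
`avg p (indF p) = 2 / p`; `0 ≤ Yq R r - Yq R (p r) ≤ Yq R r` for `r ∈ SR R` (if `p r ≤ R` the
difference is `log p ≤ log (R / r)`), so the error is at most `2 Zq²`. -/
def S_C3 : Prop := ∀ (R : ℝ), 1 ≤ R → ∀ p : ℕ, p.Prime → 5 ≤ p → ∀ s N : ℕ,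
  |(∑ t ∈ Ico s (s + N), indF p t * Lq R t ^ 2) - N * (2 / (p : ℝ) * Gn R p)| ≤ 2 * Zq R ^ 2

/-- [C4] (uses C1, C2, C3) Proof: for all `N`, `|∑_{t < N} fq - N cmean|` and `|∑_{t < N} fq - N mq|`
are bounded independently of `N` (the second by `(|B| + 2 ∑_{p ∈ Pr η} wt) Zq²`), so
`N |cmean - mq|` is bounded, hence `cmean = mq`. -/
def S_C4 : Prop := ∀ (R η B : ℝ) (D : ℕ) (c : ℕ → ℕ → ℝ), 1 ≤ R → 0 < η →
  (∀ t, fq R η B t = comb D c t) → cmean D c = mq R η B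

/-- [D0] Proof: with `R = exp v`, `log_moment_eq` (`k = 0`) gives
`v M_0 - M_1 = ∑_{r ∈ SR R} hR r log r`, and (`Good.log_eq`, `SR_sum_dvd` or as in `log_moment`) this is
`∑_{p ∈ Pab 4 ⌊R⌋₊} ch p ∑_{r ∈ SR R, p ∤ r, p r ≤ R} hR r`. Without the condition `p ∤ r` the inner
sum grows by at most `∑_{p r' ∈ SR R} hR (p r') ≤ hp p M_0`. So
`v M_0 - M_1 ≥ ∑_{r ∈ SR R} hR r ∑_{p ∈ Pab 4 ⌊R/r⌋₊} ch p - (∑_p ch p hp p) M_0`. Here `ch ≥ ca`,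
`∑_{p ∈ Pab 4 m} ca p = aS m ≥ 2 log (m+1) - const` (`aS_lower`), so the first term is at least
`2 M_1 - const M_0` (`log (⌊R/r⌋+1) ≥ Y R r`), and `∑_{p ∈ Pab 4 m} ch p hp p` is bounded independently
of `m` (`ch p hp p = 4 log p / (p-2)²`). -/
def S_D0 : Prop := ∃ K : ℝ, 0 ≤ K ∧ ∀ v : ℝ, 0 ≤ v →
  3 * M (Real.exp v) 1 ≤ (v + K) * M (Real.exp v) 0

/-- [D1] Proof: for `0 ≤ u ≤ v`, `M (exp u) k = ∑_{r ∈ SR (exp v)} if log r ≤ u then hR r (u - log r)^k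
else 0` (for `k = 0` this is `aF (SR (exp v)) hR lg u`), and
`(k+1) ∫_{log r}^v (u - log r)^k du = (v - log r)^(k+1)`. Finite sum; integrability as in `step_int`
(or: the functions `u ↦ if a ≤ u then (u-a)^k else 0` are monotone, `MonotoneOn.intervalIntegrable`). -/
def S_D1 : Prop := ∀ v : ℝ, 0 ≤ v → ∀ k : ℕ,
  IntervalIntegrable (fun u => M (Real.exp u) k) volume 0 v ∧
  M (Real.exp v) (k + 1) = (k + 1) * ∫ u in (0 : ℝ)..v, M (Real.exp u) k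

/-- [D2a] (uses D1) Proof: put `f u = M (exp u) 1`, `H u = M (exp u) 0`; by D1 `f v = ∫_0^v H`, `H` is
monotone and `u H u ≤ 3 f u` (`rel0` with `R = exp u`). `f` is continuous and has right derivative
`H u` at `u` (it is `∑_{r ∈ SR (exp v2)} hR r max 0 (u - log r)` on `[0, v2]`), so `f u / u^3` has right
derivative `(u H u - 3 f u) / u^4 ≤ 0`, and is nonincreasing (e.g.
`image_le_of_liminf_slope_right_lt_deriv_boundary` or `intervalIntegral.integral_eq_sub_of_hasDeriv_right`).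
Another way: on an interval without `log r`, `r ∈ SR`, in its interior `f` is affine with slope `H`,
so it is differentiable there; the monotonicity on the finitely many intervals gives it in general. -/
def S_D2a : Prop := ∀ v1 v2 : ℝ, 0 < v1 → v1 ≤ v2 →
  M (Real.exp v2) 1 * v1 ^ 3 ≤ M (Real.exp v1) 1 * v2 ^ 3

/-- [D2b] (uses D1) Proof: as D2a: `f u / (u + K)^3` has right derivative
`((u + K) H u - 3 f u) / (u + K)^4 ≥ 0`. -/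
def S_D2b : Prop := ∀ K : ℝ, 0 < K →
  (∀ v : ℝ, 0 ≤ v → 3 * M (Real.exp v) 1 ≤ (v + K) * M (Real.exp v) 0) →
  ∀ v1 v2 : ℝ, 0 ≤ v1 → v1 ≤ v2 →
  M (Real.exp v1) 1 * (v2 + K) ^ 3 ≤ M (Real.exp v2) 1 * (v1 + K) ^ 3

/-- [D3] (uses D0, D1, D2a, D2b) Asymptotics of the moments. Proof: `K > 0` from D0 (may be enlarged).
`a(v) = M_1(v) / v³` (`v > 0`) is antitone, `b(v) = M_1(v) / (v+K)³` is monotone and `b ≤ a`; so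
`b(w) ≤ a(v)` for all `v, w > 0`. Let `A = inf a`; then `b(w) ≤ A ≤ a(v)` for all `v, w > 0`, and
`A ≥ b(1) > 0` (`M_1(1) ≥ hR 1 * Y (exp 1) 1 = 1`). So `A v³ ≤ M_1(v) ≤ A (v+K)³` for all `v ≥ 0`.
Put `C0 = 3 A`. `M_0`: `v M_0 ≤ 3 M_1` (`rel0`) and `3 M_1 ≤ (v+K) M_0` give
`C0 v³ / (v+K) ≤ M_0 ≤ C0 (v+K)³ / v`, which is `C0 v² + O(v+1)` for `v ≥ 1`; for `0 ≤ v ≤ 1`,
`0 ≤ M_0(v) ≤ M_0(1)`. `M_2 = 2 ∫_0^v M_1` (D1). -/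
def S_D3 : Prop := ∃ C0 K : ℝ, 0 < C0 ∧ 0 ≤ K ∧ ∀ v : ℝ, 0 ≤ v →
  |M (Real.exp v) 0 - C0 * v ^ 2| ≤ K * (v + 1) ∧
  |M (Real.exp v) 1 - C0 / 3 * v ^ 3| ≤ K * (v + 1) ^ 2 ∧
  |M (Real.exp v) 2 - C0 / 6 * v ^ 4| ≤ K * (v + 1) ^ 3

/-- [D4] Exact formulas, `R = exp ℓ`. Proof: for `r ∈ SR R`: `Yq R r = Y R r + ℓ/8` and
`(Y + ℓ/8)² = Y² + (ℓ/4) Y + ℓ²/64`. `R' = R / p = exp (ℓ - log p)`: `p r ≤ R ↔ r ≤ R'`. For
`r ∈ SR R` with `p r ≤ R` the difference `Yq R r - Yq R (p r)` is `log p`, otherwise it is `Yq R r`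
(`Yq R (p r) = 0`). And `Yq R r = Y R' r + log p + ℓ/8` for `r ∈ SR R'`. If `ℓ < log p` then
`p r > R` for all `r ≥ 1`. -/
def S_D4 : Prop := ∀ ℓ : ℝ, 0 ≤ ℓ →
  Mq (Real.exp ℓ) = M (Real.exp ℓ) 2 + ℓ / 4 * M (Real.exp ℓ) 1 + ℓ ^ 2 / 64 * M (Real.exp ℓ) 0 ∧
  ∀ p : ℕ, p.Prime → 5 ≤ p →
    (Real.log p ≤ ℓ → Gq (Real.exp ℓ) p = Mq (Real.exp ℓ)
      - (M (Real.exp (ℓ - Real.log p)) 2
        + 2 * (Real.log p + ℓ / 8) * M (Real.exp (ℓ - Real.log p)) 1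
        + (Real.log p + ℓ / 8) ^ 2 * M (Real.exp (ℓ - Real.log p)) 0)
      + Real.log p ^ 2 * M (Real.exp (ℓ - Real.log p)) 0) ∧
    (ℓ < Real.log p → Gq (Real.exp ℓ) p = Mq (Real.exp ℓ))

/-- [D5] (uses D3, D4) Uniform asymptotics. Proof: insert D3 in D4. With `v = log p / ℓ ∈ [0,1]` the
main term is `C0 ℓ⁴ (17/64 - ((1-v)^4/6 + 2 (v+1/8) (1-v)^3/3 + (v+1/8)^2 (1-v)^2) + v^2 (1-v)^2)
= C0 ℓ⁴ gq v` (ring), and all errors are at most `K' ℓ³` for `ℓ ≥ 1` (`0 ≤ ℓ - log p ≤ ℓ`). If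
`log p > ℓ`: `gt v = gq 1 = 17/64`. -/
def S_D5 : Prop := ∃ C0 K : ℝ, 0 < C0 ∧ 0 ≤ K ∧ ∀ ℓ : ℝ, 1 ≤ ℓ →
  |Mq (Real.exp ℓ) - 17 / 64 * C0 * ℓ ^ 4| ≤ K * ℓ ^ 3 ∧
  ∀ p : ℕ, p.Prime → 5 ≤ p →
    |Gq (Real.exp ℓ) p - C0 * ℓ ^ 4 * gt (Real.log p / ℓ)| ≤ K * ℓ ^ 3

/-- [D6] The sum over the primes. Proof: `η = 3 ℓ`, `wt η p * (2/(p-1)) = ca p * (1/log p - 1/η)`
(`wt_mul_eq`). So the sum is `∑_{p ∈ Pr η} ca p φ(log p)` with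
`φ(u) = (1/u - 1/η) gt(u/ℓ)`; on `[0, ℓ]` this is the polynomial
`(1/ℓ) (1 - u/(3ℓ)) (1/32 + (79/64)(u/ℓ) - (3/2)(u/ℓ)² + (u/ℓ)³/2)`, on `[ℓ, 3ℓ]` it is
`(17/64) (1/u - 1/(3ℓ))`, and `φ(3ℓ) = 0`. With the layer formula (`layer`) for `ψ = -φ'` on `[0, ℓ]`
and on `[ℓ, 3ℓ]` the sum is `- ∫_0^{3ℓ} φ'(u) A(u) du`, `A = aF (Pr η) ca lg`, and
`|A(u) - 2u| ≤ 6` on `[0, 3ℓ)` (`aFa_le`, `aFa_ge`; in `aFa_ge` all primes `p ≥ 5` with `log p ≤ u < 3ℓ`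
are in `Pr η`). `|φ'(u)| ≤ 10/ℓ²`, so the error is at most `180/ℓ`, and
`- ∫_0^{3ℓ} φ'(u) 2u du = 2 ∫_0^{3ℓ} φ = 2 (35/128 - 73/1440) + (17/32) (log 3 - 2/3)`. -/
def S_D6 : Prop := ∃ K : ℝ, 0 ≤ K ∧ ∀ ℓ : ℝ, 1 ≤ ℓ →
  ∑ p ∈ Pr (3 * ℓ), wt (3 * ℓ) p * (2 / ((p : ℝ) - 1)) * gt (Real.log p / ℓ)
    ≤ 35 / 64 - 73 / 720 + 17 / 32 * (Real.log 3 - 2 / 3) + K / ℓ

/-- [D7] Proof: `2/(p-1) = ca p / log p`. The primes with `log p ≤ √η` contribute at most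
`∑ ca p ≤ 2 √η` (`log p ≥ 1`; `aFa_le`), the others at most `(∑_{p ∈ Pr η} ca p) / √η ≤ 2 η / √η`. -/
def S_D7 : Prop := ∀ η : ℝ, 1 ≤ η → ∑ p ∈ Pr η, 2 / ((p : ℝ) - 1) ≤ 4 * Real.sqrt η

/-- [D9] Proof: `0 ≤ gt x ≤ 1.3 x` for `x ≥ 0`, so the sum is at most
`(1.3/ℓ) ∑_{p ∈ Pr η, log p ≤ w} ca p ≤ (1.3/ℓ) 2 w` (`aFa_le`: `max 0 (2w - 2.02) ≤ 2 w`). -/
def S_D9 : Prop := ∀ η ℓ w : ℝ, 0 < ℓ → 0 ≤ w →
  ∑ p ∈ (Pr η).filter (fun p : ℕ => Real.log p ≤ w), 2 / ((p : ℝ) - 1) * gt (Real.log p / ℓ)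
    ≤ 3 * w / ℓ

/-- [D8] (uses D5, D6, D7, D9) Proof: `Gn R p ≤ Gq R p` (subset sum of nonnegative terms), `2/p ≤ 2/(p-1)`
and `Gq R p ≤ C0 ℓ⁴ gt(log p/ℓ) + K ℓ³` (D5; `gt ≥ 0`). So by D6, D7
`∑_{p ∈ Pr η} wt (2/p) Gn ≤ C0 ℓ⁴ (s + K'/ℓ) + K ℓ³ 4 √(3ℓ)`, `s = 35/64 - 73/720 + (17/32)(log 3 - 2/3)
≤ 0.67497` (`Real.log_three_lt_d9`), and `B Mq ≥ 2.5506 (17/64 C0 ℓ⁴ - K ℓ³)`,
`2.5506 * 17/64 ≥ 0.6775`. For large `ℓ` the difference is at least `0.0025 C0 ℓ⁴`. The second claim: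
D9, D5, D7. Third: D5. -/
def S_D8 : Prop := ∃ C0 ℓ0 : ℝ, 0 < C0 ∧ 1 ≤ ℓ0 ∧ ∀ ℓ : ℝ, ℓ0 ≤ ℓ →
  (∀ B : ℝ, 2.5506 ≤ B → 0.0025 * C0 * ℓ ^ 4 ≤ mq (Real.exp ℓ) (3 * ℓ) B) ∧
  (∀ w : ℝ, 0 ≤ w → ∑ p ∈ (Pr (3 * ℓ)).filter (fun p : ℕ => Real.log p ≤ w),
      2 / (p : ℝ) * Gq (Real.exp ℓ) p ≤ (3 * w / ℓ + 0.00001) * C0 * ℓ ^ 4)

open Classical in
/-- [E1] Proof: pointwise. Let `S(t) = ∑_{p ∈ Pr η} wt η p * indF p t ≥ 0` (`wt_nonneg`); always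
`fq R η B t ≤ B Lq²`, and the last two sums are nonnegative for each `t`. If some prime
`p ∣ F t` has `log p ≤ w < η`, then (`five_le_of_dvd_F`) `p ∈ Pr η` and the second sum has the term
`Lq²`. Otherwise, if `SqBad w t`: third sum. Otherwise all primes dividing `F t` have `log p > w` and
`F t` is squarefree. If `Ω (F t) ≤ 6`: first sum. If `Ω (F t) ≥ 7`: `weight_lower` with `k = 6` gives
`B ≤ ∑ wt * (F t).factorization p`, and the factorization is `indF p t` (squarefree), so `fq ≤ 0`. -/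
def S_E1 : Prop := ∀ (R η w l B : ℝ) (T : Finset ℕ), 0 < η → w < η →
  (∀ t ∈ T, Real.log (F t) ≤ l) → B = 7 - l / η → 0 ≤ B →
  ∑ t ∈ T, fq R η B t ≤ B * ∑ t ∈ T.filter (Good6 w), Lq R t ^ 2
    + B * ∑ p ∈ (Pr η).filter (fun p : ℕ => Real.log p ≤ w), ∑ t ∈ T, indF p t * Lq R t ^ 2
    + B * ∑ t ∈ T.filter (SqBad w), Lq R t ^ 2

open Classical in
/-- [E2] Proof: if `p ^ 2 ∣ F t = (6t+5)(6t+7)`, `p` prime, then `p` is odd, so it divides only one of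
the two factors (their difference is 2), and `p^2` divides it; so `p ^ 2 ≤ 6 t + 7 ≤ 6 (s+L) + 7`. For
each `p` (coprime to 6) the `t` in an interval of length `L` with `p² ∣ 6 t + 5` lie in one residue
class mod `p²`: at most `L/p² + 1` of them; the same for `6 t + 7`. Sum over the integers `n > exp w`,
`n ≤ √(6 (s+L) + 7)`: `2 L ∑_{n > exp w} 1/n² + 2 √(..) ≤ 4 L exp(-w) + 2 √(..)`
(`∑_{n > x} 1/n² ≤ 1/⌊x⌋ ≤ 2/x` for `x ≥ 1`). -/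
def S_E2 : Prop := ∀ (w : ℝ) (s L : ℕ), 0 ≤ w →
  (((Ico s (s + L)).filter (SqBad w)).card : ℝ)
    ≤ 4 * L * Real.exp (-w) + 4 * Real.sqrt (6 * ((s : ℝ) + L) + 7)

/-- [E3] (uses B2) Proof: `|Lq R t| ≤ ∑_{e ∈ SR R, e ∣ F t} |lamq R e| ≤ ∑_{e ∣ F t} 2 ℓ M_0 τ(e)
≤ 2 ℓ M_0 τ(F t)^2`. -/
def S_E3 : Prop := ∀ (R : ℝ) (t : ℕ), 1 ≤ R →
  |Lq R t| ≤ 2 * Real.log R * M R 0 * ((F t).divisors.card : ℝ) ^ 2

/-- [E4] (uses C3) Proof: C3 and `Gn ≤ Gq`; the number of primes `p` with `log p ≤ w` is at most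
`exp w`. -/
def S_E4 : Prop := ∀ (R η w : ℝ) (s L : ℕ), 1 ≤ R → 0 ≤ w →
  ∑ p ∈ (Pr η).filter (fun p : ℕ => Real.log p ≤ w),
      ∑ t ∈ Ico s (s + L), indF p t * Lq R t ^ 2
    ≤ L * ∑ p ∈ (Pr η).filter (fun p : ℕ => Real.log p ≤ w), 2 / (p : ℝ) * Gq R p
      + Real.exp w * (2 * Zq R ^ 2)

/-- [E5] Proof: as `Z_le`: `WR_div_eq`, `sum_WQ`, `sum_hp_div` give
`∑_{r ∈ SR R} WR r ≤ R ∑ WR r / r ≤ R exp(1/3) M R 0`, and `Yq R r ≤ (9/8) ℓ` on `SR R`;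
`9/8 * exp(1/3) ≤ 2`. -/
def S_E5 : Prop := ∀ R : ℝ, 1 ≤ R → Zq R ≤ 2 * Real.log R * R * M R 0

end Pool.Agent.TwA
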