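import Mathlib
import Pool.Agent.Lib.MP_d610d0_nt.AS.P.V1
import Pool.Agent.Lib.MP_d610d0_nt.AS.P.V2
import Pool.Agent.Lib.MP_d610d0_nt.AS.P.V3
import Pool.Agent.Lib.MP_d610d0_nt.AS.P.V4
import Pool.Agent.Lib.MP_d610d0_nt.AS.P.V5
import Pool.Agent.Lib.MP_d610d0_nt.AS.P.V6
import Pool.Agent.Lib.MP_d610d0_nt.AS.P.B1
import Pool.Agent.Lib.MP_d610d0_nt.AS.P.B2
import Pool.Agent.Lib.MP_d610d0_nt.AS.P.B3
import Pool.Agent.Lib.MP_d610d0_nt.AS.P.B4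
import Pool.Agent.Lib.MP_d610d0_nt.AS.P.B5
import Pool.Agent.Lib.MP_d610d0_nt.AS.P.B6
import Pool.Agent.Lib.MP_d610d0_nt.AS.P.C1
import Pool.Agent.Lib.MP_d610d0_nt.AS.P.C2
import Pool.Agent.Lib.MP_d610d0_nt.AS.P.C3
import Pool.Agent.Lib.MP_d610d0_nt.AS.P.C4
import Pool.Agent.Lib.MP_d610d0_nt.AS.P.D0
import Pool.Agent.Lib.MP_d610d0_nt.AS.P.D1
import Pool.Agent.Lib.MP_d610d0_nt.AS.P.D2a
import Pool.Agent.Lib.MP_d610d0_nt.AS.P.D2b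
import Pool.Agent.Lib.MP_d610d0_nt.AS.P.D3
import Pool.Agent.Lib.MP_d610d0_nt.AS.P.D4
import Pool.Agent.Lib.MP_d610d0_nt.AS.P.D5
import Pool.Agent.Lib.MP_d610d0_nt.AS.P.D6
import Pool.Agent.Lib.MP_d610d0_nt.AS.P.D7
import Pool.Agent.Lib.MP_d610d0_nt.AS.P.D8
import Pool.Agent.Lib.MP_d610d0_nt.AS.P.D9
import Pool.Agent.Lib.MP_d610d0_nt.AS.P.E1
import Pool.Agent.Lib.MP_d610d0_nt.AS.P.E2
import Pool.Agent.Lib.MP_d610d0_nt.AS.P.E3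
import Pool.Agent.Lib.MP_d610d0_nt.AS.P.E4
import Pool.Agent.Lib.MP_d610d0_nt.AS.P.E5
import Pool.Agent.Lib.MP_d610d0_nt.AS.P.F3

/-!
Assembly.
-/

set_option autoImplicit false

namespace Pool.Agent.TwA

open Finset

open Classical in
theorem main : ∃ c C : ℝ, 0 < c ∧ ∀ N : ℕ, 1 ≤ N →
      (((Icc 1 N).filter (fun n : ℕ =>
        ((six n).ncard : ℝ) < c * (n : ℝ) ^ 2 / (Real.log (n + 1)) ^ 2)).card : ℝ)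
        ≤ C * (N : ℝ) ^ (3 / 4 : ℝ) := by
  have hV1 := p_V1
  have hV6 := p_V6 (p_V3 hV1 p_V2) (p_V5 hV1 p_V4)
  have hB2 := p_B2 p_B1
  have hB6 := p_B6 hB2 (p_B4 p_B3) p_B5
  have hC4 := p_C4 p_C1 p_C2 p_C3
  have hD1 := p_D1
  have hD3 := p_D3 p_D0 hD1 (p_D2a hD1) (p_D2b hD1)
  have hD8 := p_D8 (p_D5 hD3 p_D4) p_D6 p_D7 p_D9
  exact F3_final hV6 hB6 hC4 hD8 p_E1 p_E2 (p_E3 hB2) (p_E4 p_C3) p_E5

end Pool.Agent.TwA
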